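import Mathlib
import Pool.Agent.R277.FR.Region

set_option autoImplicit false

open MeasureTheory

namespace Pool.Agent.Results.MP_e27144_an.FirstCoefficientRegion

/-- the first Fourier coefficient of the uniform measure on the periodic orbit of `1 / 431`,
`V = 0.16419… + 0.18956… i` -/
noncomputable def V : ℂ :=
  (1 / 43) * ∑ j ∈ Finset.range 43, Complex.exp (2 * Real.pi * Complex.I * 2 ^ j / 431)

/-- the first Fourier coefficient of the uniform measure on the periodic orbit of `1 / 23` -/
noncomputable def W : ℂ := (-1 + Real.sqrt 23 * Complex.I) / 22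

/-- the closed hexagon with vertices `1`, `V`, `W`, `-1/4`, `conj W`, `conj V` -/
noncomputable def hexagon : Set ℂ :=
  convexHull ℝ {1, V, (starRingEnd ℂ) V, W, (starRingEnd ℂ) W, -1 / 4}

/-- **The exact region of the Fourier coefficients of `×2`, `×3` invariant measures.**
No entropy, no ergodicity; atoms are allowed.
(1) The set of all first coefficients `∫ e(x) dμ(x)` of `×2`, `×3` invariant probability measures
is exactly the closed hexagon with vertices `1`, `V`, `W`, `-1/4`, `conj W`, `conj V`.
(2) The vertex `V`, which comes from the orbit of `1 / 431`, cannot be omitted.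
(3) Every Fourier coefficient of non-zero index of an invariant measure lies in the hexagon, and it
lies in the interior unless the measure is concentrated on a finite set. -/
theorem result :
    {c : ℂ | ∃ μ : Measure UnitAddCircle, IsProbabilityMeasure μ ∧
      MeasurePreserving (fun x : UnitAddCircle => 2 • x) μ μ ∧
      MeasurePreserving (fun x : UnitAddCircle => 3 • x) μ μ ∧
      c = ∫ x, (fourier 1 x : ℂ) ∂μ} = hexagon ∧
    V ∉ convexHull ℝ ({1, (starRingEnd ℂ) V, W, (starRingEnd ℂ) W, -1 / 4} : Set ℂ) ∧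
    ∀ μ : Measure UnitAddCircle, IsProbabilityMeasure μ →
      MeasurePreserving (fun x : UnitAddCircle => 2 • x) μ μ →
      MeasurePreserving (fun x : UnitAddCircle => 3 • x) μ μ → ∀ n : ℤ, n ≠ 0 →
        ∫ x, (fourier n x : ℂ) ∂μ ∈ hexagon ∧
          (∫ x, (fourier n x : ℂ) ∂μ ∈ interior hexagon ∨
            ∃ F : Set UnitAddCircle, F.Finite ∧ μ Fᶜ = 0) := by
  refine ⟨?_, Pool.Agent.R277.FR.V_not_mem, ?_⟩
  · refine Eq.trans ?_ Pool.Agent.R277.FR.region_eq
    ext c
    constructor
    · rintro ⟨μ, h1, h2, h3, h4⟩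
      exact ⟨μ, ⟨h1, h2, h3⟩, h4⟩
    · rintro ⟨μ, ⟨h1, h2, h3⟩, h4⟩
      exact ⟨μ, h1, h2, h3, h4⟩
  · intro μ h1 h2 h3 n hn
    exact Pool.Agent.R277.FR.all_co ⟨h1, h2, h3⟩ hn

end Pool.Agent.Results.MP_e27144_an.FirstCoefficientRegion
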