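import Mathlib
import Pool.Agent.R203.ID.Equiv
import Pool.Agent.H847R3.SuppC

/-!
Furstenberg's `× p`, `× q` problem for infinitely divisible laws on the circle.

Let `p, q ≥ 2` be integers with `log p / log q` irrational.  We prove that the following four
statements are equivalent:

* every atomless infinitely divisible law on the circle which is invariant under multiplication
  by `p` and by `q` is Lebesgue measure (a special case of Furstenberg's conjecture);
* every `σ`-finite measure invariant under multiplication by `p` and by `q` which is finite on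
  some nonempty open set is finite;
* there is a gap at the trivial character: for some `c > 0`, every invariant probability measure
  `μ` and every `m` with `μ {m x = 0} = 0` satisfy `Re μ̂(m) ≤ 1 - c`;
* for every nonempty open `U` there is `C` such that `μ {x : the orbit of x meets U} ≤ C μ(U)` for
  every invariant probability measure `μ`.

Unconditionally we show that an infinitely divisible invariant law `μ` other than Lebesgue measure
gives to the `e^{-t}` neighbourhood of the subgroup `{m (x - y) = 0}` (for a suitable `m ≠ 0`)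
a product mass at least `exp (-C t^κ)` with `κ < 1`, and for every `κ > 0` when `p` and `q` are
coprime.
-/

set_option autoImplicit false
open MeasureTheory
open scoped NNReal ENNReal

namespace Pool.Agent.Results.MP_e27144_an.InfinitelyDivisible

/-- `L` is invariant under multiplication by `p` and under multiplication by `q`. -/
def Invariant (p q : ℕ) (L : Measure UnitAddCircle) : Prop :=
  MeasurePreserving (fun x : UnitAddCircle => p • x) L L ∧
    MeasurePreserving (fun x : UnitAddCircle => q • x) L L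

/-- `μ` is infinitely divisible: for every `n ≥ 1` it is the law of the sum of `n` independent
random variables with a common law. -/
def InfDivisible (μ : Measure UnitAddCircle) : Prop :=
  ∀ n : ℕ, 1 ≤ n → ∃ ρ : Measure UnitAddCircle, IsProbabilityMeasure ρ ∧
    (Measure.pi fun _ : Fin n => ρ).map (fun y => ∑ i, y i) = μ

/-- Furstenberg's conjecture for atomless infinitely divisible laws. -/
def InfDivRigid (p q : ℕ) : Prop :=
  ∀ μ : Measure UnitAddCircle, IsProbabilityMeasure μ → Invariant p q μ → (∀ x, μ {x} = 0) →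
    InfDivisible μ → μ = volume

/-- Invariant measures which are finite on some nonempty open set are finite. -/
def NoInfinite (p q : ℕ) : Prop :=
  ∀ L : Measure UnitAddCircle, SigmaFinite L → Invariant p q L →
    ∀ U : Set UnitAddCircle, IsOpen U → U.Nonempty → L U < ⊤ → L Set.univ < ⊤

/-- A gap at the trivial character. -/
def GapAtZero (p q : ℕ) : Prop :=
  ∃ c : ℝ, 0 < c ∧ ∀ μ : Measure UnitAddCircle, IsProbabilityMeasure μ → Invariant p q μ →
    ∀ m : ℤ, μ {x | m • x = 0} = 0 → (∫ x, (fourier m x : ℂ) ∂μ).re ≤ 1 - c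

/-- Open sets are visited with uniformly positive frequency. -/
def UniformVisits (p q : ℕ) : Prop :=
  ∀ U : Set UnitAddCircle, IsOpen U → U.Nonempty → ∃ C : ℝ≥0, ∀ μ : Measure UnitAddCircle,
    IsProbabilityMeasure μ → Invariant p q μ →
    μ {x | ∃ i j : ℕ, (p ^ i * q ^ j) • x ∈ U} ≤ C * μ U

/-- Open sets are visited with uniformly positive frequency by the finite invariant sets. -/
def UniformVisitsFinite (p q : ℕ) : Prop :=
  ∀ U : Set UnitAddCircle, IsOpen U → U.Nonempty → ∃ C : ℝ, ∀ O : Finset UnitAddCircle,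
    (∀ r ∈ ({p, q} : Set ℕ), (∀ x ∈ O, r • x ∈ O) ∧ ∀ x ∈ O, ∀ y ∈ O, r • x = r • y → x = y) →
    (({x | x ∈ O ∧ ∃ i j : ℕ, (p ^ i * q ^ j) • x ∈ U} : Set UnitAddCircle).ncard : ℝ) ≤
      C * (({x | x ∈ O ∧ x ∈ U} : Set UnitAddCircle).ncard : ℝ)

theorem result {p q : ℕ} (hp : 2 ≤ p) (hq : 2 ≤ q)
    (hirr : Irrational (Real.log (p : ℝ) / Real.log (q : ℝ))) :
    List.TFAE [InfDivRigid p q, NoInfinite p q, GapAtZero p q, UniformVisits p q] ∧
    (UniformVisits p q → UniformVisitsFinite p q) ∧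
    (∃ κ₀ : ℝ, 0 ≤ κ₀ ∧ κ₀ < 1 ∧ (Nat.Coprime p q → κ₀ = 0) ∧
      ∀ κ : ℝ, κ₀ < κ → ∀ μ : Measure UnitAddCircle, IsProbabilityMeasure μ → Invariant p q μ →
        InfDivisible μ → μ ≠ volume →
        ∃ m : ℤ, m ≠ 0 ∧ ∃ C : ℝ, ∀ t : ℝ, 1 ≤ t →
          ENNReal.ofReal (Real.exp (-(C * t ^ κ))) ≤
            (μ.prod μ) {z | ‖m • (z.1 - z.2)‖ ≤ Real.exp (-t)}) := by
  refine ⟨?_, ?_, ?_⟩
  · tfae_have 1 → 2 := by
      intro h L hL hinv U hU hne hfin
      by_contra hcon
      rw [not_lt, top_le_iff] at hcon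
      obtain ⟨ν, hν, h0, h1, h2, h3, h4⟩ := Pool.Agent.R203.ID.exists_id hp hq hirr L hinv.1 hinv.2
        hU hne hfin hcon
      exact h4 (h ν hν ⟨h1, h2⟩ h0 h3)
    tfae_have 2 → 3 := by
      intro h
      obtain ⟨c, hc, hG⟩ := Pool.Agent.R203.ID.gap_of_sigma (p := p) (q := q)
        (fun L hL h1 h2 U hU hne hfin => h L hL ⟨h1, h2⟩ U hU hne hfin)
      exact ⟨c, hc, fun μ hμ hinv m hm => Pool.Agent.R203.ID.gap_all hG μ hinv.1 hinv.2 m hm⟩
    tfae_have 3 → 1 := by
      rintro ⟨c, hc, hG⟩ μ hμ hinv h0 hid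
      refine Pool.Agent.R203.ID.id_of_gap hc (p := p) (q := q) ?_ μ h0 hinv.1 hinv.2 hid
      intro μ' hμ' h1 h2 h3
      exact hG μ' hμ' ⟨h1, h2⟩ 1 (by simpa using h3)
    tfae_have 3 → 4 := by
      rintro ⟨c, hc, hG⟩ U hU hne
      obtain ⟨C, hC⟩ := Pool.Agent.R203.ID.hit_of_gap hp hq hirr hc
        (fun μ' hμ' h1 h2 h3 => hG μ' hμ' ⟨h1, h2⟩ 1 (by simpa using h3)) hU hne
      exact ⟨C, fun μ hμ hinv => hC μ hμ hinv.1 hinv.2⟩
    tfae_have 4 → 3 := by
      intro h
      obtain ⟨c, hc, hG⟩ := Pool.Agent.R203.ID.gap_of_hit (p := p) (q := q) hp (fun U hU hne => by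
        obtain ⟨C, hC⟩ := h U hU hne
        exact ⟨C, fun μ hμ h1 h2 => hC μ hμ ⟨h1, h2⟩⟩)
      exact ⟨c, hc, fun μ hμ hinv m hm => Pool.Agent.R203.ID.gap_all hG μ hinv.1 hinv.2 m hm⟩
    tfae_finish
  · intro h U hU hne
    obtain ⟨C, hC⟩ := h U hU hne
    refine ⟨C, fun O hO => ?_⟩
    classical
    set V : Set UnitAddCircle := {x | ∃ i j : ℕ, (p ^ i * q ^ j) • x ∈ U} with hV
    have hVm : MeasurableSet V := by
      have : V = ⋃ i : ℕ, ⋃ j : ℕ, (fun x : UnitAddCircle => (p ^ i * q ^ j) • x) ⁻¹' U := by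
        ext x
        simp [hV]
      rw [this]
      exact MeasurableSet.iUnion fun i => MeasurableSet.iUnion fun j =>
        (show Measurable fun x : UnitAddCircle => (p ^ i * q ^ j) • x by fun_prop) hU.measurableSet
    have e1 : ({x | x ∈ O ∧ x ∈ V} : Set UnitAddCircle).ncard = (O.filter (· ∈ V)).card := by
      rw [← Set.ncard_coe_finset]
      congr 1
      ext x
      simp
    have e2 : ({x | x ∈ O ∧ x ∈ U} : Set UnitAddCircle).ncard = (O.filter (· ∈ U)).card := by
      rw [← Set.ncard_coe_finset]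
      congr 1
      ext x
      simp
    show (({x | x ∈ O ∧ x ∈ V} : Set UnitAddCircle).ncard : ℝ) ≤
      C * (({x | x ∈ O ∧ x ∈ U} : Set UnitAddCircle).ncard : ℝ)
    rw [e1, e2]
    rcases O.eq_empty_or_nonempty with rfl | hOne
    · simp
    have hμ := Pool.Agent.H847R3.XpXq.unif_prob hOne
    have h1 := hO p (by simp)
    have h2 := hO q (by simp)
    have h3 := hC _ hμ ⟨Pool.Agent.H847R3.XpXq.unif_pres h1.1 h1.2,
      Pool.Agent.H847R3.XpXq.unif_pres h2.1 h2.2⟩
    have h4 := ENNReal.toReal_mono (by finiteness) h3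
    rw [ENNReal.toReal_mul, ENNReal.coe_toReal] at h4
    have h5 : (Pool.Agent.H847R3.XpXq.unif O).real V ≤
      C * (Pool.Agent.H847R3.XpXq.unif O).real U := h4
    rw [Pool.Agent.H847R3.XpXq.unif_real O hVm,
      Pool.Agent.H847R3.XpXq.unif_real O hU.measurableSet] at h5
    have hcard : (0 : ℝ) < O.card := by exact_mod_cast hOne.card_pos
    rw [mul_div_assoc', div_le_div_iff_of_pos_right hcard] at h5
    exact h5
  · obtain ⟨κ₀, h0, h1, h2, h3⟩ := Pool.Agent.TH461.FGK.nc hp hq hirr
    refine ⟨κ₀, h0, h1, fun hcop => h2 ?_, fun κ hκ μ hμ hinv hid hne => ?_⟩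
    · exact ⟨p, q, 1, 0, 0, 1, hp, hq, hcop, by simp, by simp, by simp⟩
    · have : ∃ m : ℤ, m ≠ 0 ∧ Pool.Agent.R203.ID.hat μ m ≠ 0 := by
        by_contra hcon
        push Not at hcon
        apply hne
        apply Pool.Agent.R203.ID.ext_hat
        intro m
        by_cases hm : m = 0
        · subst hm
          unfold Pool.Agent.R203.ID.hat
          simp [measureReal_def, AddCircle.measure_univ]
        · rw [hcon m hm, Pool.Agent.R203.ID.hat_vol hm]
      obtain ⟨m, hm, hmne⟩ := this
      exact ⟨m, hm, Pool.Agent.R203.ID.slow (lt_of_le_of_lt h0 hκ) (h3 κ hκ) μ hinv.1 hinv.2 hid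
        hmne⟩

end Pool.Agent.Results.MP_e27144_an.InfinitelyDivisible
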