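import Pool.Agent.R202.Rot
import Pool.Agent.R202.LCc

/-!
# Counting the large Fourier coefficients of the `×2`, `×3` invariant measures

If `μ^(a) ≠ 0`, `a ≠ 0`, for a probability measure `μ` on the circle which is invariant under
`x ↦ 2 x` and `x ↦ 3 x`, then for every `k` and `θ < 1` at least `c (log X) ^ (4 k)` of the integers
`n ≤ X` satisfy `|μ^(n)| ≥ θ |μ^(a)| ^ (2 k)`.
-/

set_option autoImplicit false

open MeasureTheory Filter Topology Set

namespace Pool.Agent.Results.MP_e27144_an.ManyLargeCoefficients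

open Pool.Agent.R202.LC

lemma coeff_volume {m : ℤ} (hm : m ≠ 0) : ∫ x : UnitAddCircle, (fourier m x : ℂ) = 0 :=
  Pool.Agent.R202.coeff_zero irrational_sqrt_two (measurePreserving_add_right volume _).map_eq hm

lemma finite_set (P : ℕ → Prop) (Y : ℝ) : {n : ℕ | 1 ≤ n ∧ (n : ℝ) ≤ Y ∧ P n}.Finite := by
  refine (Set.finite_Iic ⌊Y⌋₊).subset fun n hn => ?_
  rw [mem_ofPred_eq] at hn
  exact Nat.le_floor hn.2.1

lemma count_sub {P : ℕ → Prop} {Y : ℝ} (J : Finset ℕ)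
    (hJ : ∀ n ∈ J, 1 ≤ n ∧ (n : ℝ) ≤ Y ∧ P n) :
    J.card ≤ Nat.card {n : ℕ | 1 ≤ n ∧ (n : ℝ) ≤ Y ∧ P n} := by
  have h1 : (J : Set ℕ).ncard ≤ {n : ℕ | 1 ≤ n ∧ (n : ℝ) ≤ Y ∧ P n}.ncard :=
    Set.ncard_le_ncard (fun n hn => hJ n hn) (finite_set P Y)
  rw [Set.ncard_coe_finset] at h1
  exact h1

theorem main (k : ℕ) (hk : 1 ≤ k) (α θ : ℝ) (hα : 0 < α) (hθ0 : 0 < θ) (hθ1 : θ < 1) :
    ∃ c X₀ : ℝ, 0 < c ∧ 1 < X₀ ∧ ∀ μ : Measure UnitAddCircle, IsProbabilityMeasure μ →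
      MeasurePreserving (fun x : UnitAddCircle => 2 • x) μ μ →
      MeasurePreserving (fun x : UnitAddCircle => 3 • x) μ μ →
      ∀ a : ℤ, a ≠ 0 → α ≤ ‖∫ x, fourier a x ∂μ‖ → ∀ X : ℝ, X₀ ≤ X →
        c * Real.log X ^ (4 * k) ≤ Nat.card {n : ℕ | 1 ≤ n ∧ (n : ℝ) ≤ |(a : ℝ)| * X ∧
          θ * α ^ (2 * k) ≤ ‖∫ x, fourier (n : ℤ) x ∂μ‖} := by
  classical
  have : Nonempty (Fin k ⊕ Fin k) := ⟨Sum.inl ⟨0, hk⟩⟩
  set β : ℝ := (1 - θ) * α ^ (2 * k) with hβ
  have hβ0 : 0 < β := by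
    have : 0 < 1 - θ := by linarith
    positivity
  have hmc : Fintype.card (Fin k ⊕ Fin k) = 2 * k := by
    rw [Fintype.card_sum, Fintype.card_fin]; ring
  obtain ⟨N₀, hN₀⟩ := (many (sg k) β hβ0).exists_forall_of_atTop
  rw [hmc] at hN₀
  set m : ℝ := ((2 * k : ℕ) : ℝ) with hm
  have hm0 : 1 ≤ m := by
    rw [hm]
    exact_mod_cast (by omega : 1 ≤ 2 * k)
  set γ : ℝ := β / (2 * m ^ (2 * k)) with hγ
  have hγ0 : 0 < γ := by positivity
  refine ⟨γ / 2 * (1 / 8) ^ (4 * k), Real.exp (4 * (N₀ + 1) + 8) * m ^ 2 + 1, by positivity, ?_, ?_⟩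
  · have : 0 < Real.exp (4 * (N₀ + 1) + 8) * m ^ 2 := by positivity
    linarith
  intro μ hμ h2 h3 a ha haα X hX
  have hexp : 0 < Real.exp (4 * (N₀ + 1) + 8) := Real.exp_pos _
  have hm2 : 1 ≤ m ^ 2 := one_le_pow₀ hm0
  have hX1 : Real.exp (4 * (N₀ + 1) + 8) ≤ X := by nlinarith
  have hX2 : m ^ 2 ≤ X := by
    have : 1 ≤ Real.exp (4 * (N₀ + 1) + 8) := Real.one_le_exp (by positivity)
    nlinarith
  have hXpos : 0 < X := hexp.trans_le hX1
  have hlog : 4 * ((N₀ : ℝ) + 1) + 8 ≤ Real.log X := by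
    have := Real.log_le_log hexp hX1
    rwa [Real.log_exp] at this
  set N := ⌊Real.log X / 4⌋₊ with hN
  have hlog0 : 0 ≤ Real.log X / 4 := by
    have : (0 : ℝ) ≤ N₀ := Nat.cast_nonneg _
    linarith
  have hNle : (N : ℝ) ≤ Real.log X / 4 := Nat.floor_le hlog0
  have hNge : Real.log X / 4 < N + 1 := Nat.lt_floor_add_one _
  have hNN : N₀ ≤ N := by
    refine Nat.le_floor ?_
    linarith
  have hN8 : Real.log X / 8 ≤ N := by
    have : (0 : ℝ) ≤ N₀ := Nat.cast_nonneg _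
    linarith
  -- the size
  have hsize : m * 6 ^ N ≤ X := by
    have h6 : (6 : ℝ) ^ N ≤ Real.exp (Real.log X / 2) := by
      have h61 : Real.log 6 ≤ 2 := by
        have h62 : Real.log 6 = Real.log 2 + Real.log 3 := by
          rw [← Real.log_mul (by norm_num) (by norm_num)]; norm_num
        have h63 := Real.log_two_lt_d9
        have h64 : Real.log 3 < 1.2 := by
          have h65 : (3 : ℝ) ^ 5 < 2 ^ 8 := by norm_num
          have h66 : Real.log ((3 : ℝ) ^ 5) < Real.log (2 ^ 8) := Real.log_lt_log (by norm_num) h65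
          rw [Real.log_pow, Real.log_pow] at h66
          push_cast at h66
          linarith
        linarith
      have : (6 : ℝ) ^ N = Real.exp (N * Real.log 6) := by
        rw [mul_comm, Real.exp_mul, Real.exp_log (by norm_num), Real.rpow_natCast]
      rw [this]
      refine Real.exp_le_exp.2 ?_
      have h0 : (0 : ℝ) ≤ N := Nat.cast_nonneg _
      nlinarith
    have hm1 : m ≤ Real.exp (Real.log X / 2) := by
      have h7 : Real.exp (Real.log X / 2) ^ 2 = X := by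
        rw [← Real.exp_nat_mul]
        push_cast
        rw [show (2 : ℝ) * (Real.log X / 2) = Real.log X by ring, Real.exp_log hXpos]
      exact le_of_sq_le_sq (by rw [h7]; exact hX2) (Real.exp_pos _).le
    calc m * 6 ^ N ≤ Real.exp (Real.log X / 2) * Real.exp (Real.log X / 2) :=
          mul_le_mul hm1 h6 (by positivity) (Real.exp_pos _).le
      _ = X := by rw [← Real.exp_add, add_halves, Real.exp_log hXpos]
  have hlt := large_tuples h2 h3 k a N hα hθ0 haα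
  obtain ⟨I, hI, hIc⟩ := hN₀ N hNN _ (Finset.filter_subset _ _) (by
    rw [show 2 * (2 * k) = 4 * k by ring]
    exact hlt)
  -- the absolute values
  set J := I.image fun n => (a * n).natAbs with hJ
  have hIJ : I.card ≤ 2 * J.card := by
    refine Finset.card_le_mul_card_image I 2 ?_
    intro b hb
    rw [Finset.mem_image] at hb
    obtain ⟨n0, _, rfl⟩ := hb
    have hsub : (I.filter fun n => (a * n).natAbs = (a * n0).natAbs) ⊆ {n0, -n0} := by
      intro n hn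
      rw [Finset.mem_filter] at hn
      rw [Finset.mem_insert, Finset.mem_singleton]
      rcases Int.natAbs_eq_natAbs_iff.1 hn.2 with h | h
      · left
        exact mul_left_cancel₀ ha h
      · right
        refine mul_left_cancel₀ ha ?_
        rw [h]; ring
    exact (Finset.card_le_card hsub).trans Finset.card_le_two
  have hJm : ∀ n ∈ J, 1 ≤ n ∧ (n : ℝ) ≤ |(a : ℝ)| * X ∧
      θ * α ^ (2 * k) ≤ ‖∫ x, fourier (n : ℤ) x ∂μ‖ := by
    intro n hn
    rw [hJ, Finset.mem_image] at hn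
    obtain ⟨w, hw, rfl⟩ := hn
    obtain ⟨hw0, z, hz, hzw⟩ := hI w hw
    rw [Finset.mem_filter] at hz
    rw [hzw] at hz
    refine ⟨?_, ?_, ?_⟩
    · exact Nat.one_le_iff_ne_zero.2 (Int.natAbs_ne_zero.2 (mul_ne_zero ha hw0))
    · rw [Nat.cast_natAbs, Int.cast_abs, Int.cast_mul, abs_mul]
      refine mul_le_mul_of_nonneg_left ?_ (abs_nonneg _)
      have h7 := nn_le (sg k) (N := N) (z := z) fun l => Fintype.mem_piFinset.1 hz.1 l
      rw [hmc, hzw] at h7
      have h8 : |(w : ℝ)| ≤ ((2 * k : ℕ) : ℝ) * 6 ^ N := by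
        have : ((|w| : ℤ) : ℝ) ≤ (((2 * k : ℕ) : ℤ) * 6 ^ N : ℤ) := by exact_mod_cast h7
        push_cast at this
        push_cast
        exact this
      exact h8.trans hsize
    · rcases Int.natAbs_eq (a * w) with h | h
      · rw [← h]
        exact hz.2
      · rw [← coeff_neg, ← h]
        exact hz.2
  have h9 := count_sub J hJm
  have h10 : ((J.card : ℕ) : ℝ) ≤ Nat.card {n : ℕ | 1 ≤ n ∧ (n : ℝ) ≤ |(a : ℝ)| * X ∧
      θ * α ^ (2 * k) ≤ ‖∫ x, fourier (n : ℤ) x ∂μ‖} := by exact_mod_cast h9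
  refine le_trans ?_ h10
  have h11 : (I.card : ℝ) ≤ 2 * J.card := by exact_mod_cast hIJ
  have h12 : γ * (N : ℝ) ^ (4 * k) ≤ I.card := by
    rw [show 4 * k = 2 * (2 * k) by ring]
    exact hIc
  have h13 : (1 / 8 : ℝ) ^ (4 * k) * Real.log X ^ (4 * k) ≤ (N : ℝ) ^ (4 * k) := by
    rw [← mul_pow]
    refine pow_le_pow_left₀ (by linarith) ?_ _
    linarith
  nlinarith [mul_le_mul_of_nonneg_left h13 hγ0.le]

/-- **Counting the large Fourier coefficients of the `×2`, `×3` invariant measures.**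
(1) For all `k ≥ 1`, `α > 0` and `0 < θ < 1` there are `c > 0` and `X₀` such that for every
probability measure `μ` on the circle, invariant under `x ↦ 2 x` and `x ↦ 3 x`, every `a ≠ 0` with
`|μ^(a)| ≥ α` and every `X ≥ X₀` at least `c (log X) ^ (4 k)` of the integers `1 ≤ n ≤ |a| X` satisfy
`|μ^(n)| ≥ θ α ^ (2 k)`.
(2) A probability measure `μ` which is invariant under `x ↦ 2 x` and `x ↦ 3 x` is Lebesgue measure
if and only if there is an exponent `C` such that, for every `δ > 0`, the number of the `n ≤ X` with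
`|μ^(n)| ≥ δ` is `O ((log X) ^ C)`. -/
theorem result :
    (∀ k : ℕ, 1 ≤ k → ∀ α θ : ℝ, 0 < α → 0 < θ → θ < 1 →
      ∃ c X₀ : ℝ, 0 < c ∧ 1 < X₀ ∧ ∀ μ : Measure UnitAddCircle, IsProbabilityMeasure μ →
        MeasurePreserving (fun x : UnitAddCircle => 2 • x) μ μ →
        MeasurePreserving (fun x : UnitAddCircle => 3 • x) μ μ →
        ∀ a : ℤ, a ≠ 0 → α ≤ ‖∫ x, fourier a x ∂μ‖ → ∀ X : ℝ, X₀ ≤ X →
          c * Real.log X ^ (4 * k) ≤ Nat.card {n : ℕ | 1 ≤ n ∧ (n : ℝ) ≤ |(a : ℝ)| * X ∧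
            θ * α ^ (2 * k) ≤ ‖∫ x, fourier (n : ℤ) x ∂μ‖}) ∧
    (∀ μ : Measure UnitAddCircle, IsProbabilityMeasure μ →
      MeasurePreserving (fun x : UnitAddCircle => 2 • x) μ μ →
      MeasurePreserving (fun x : UnitAddCircle => 3 • x) μ μ →
      (μ = volume ↔ ∃ C : ℕ, ∀ δ : ℝ, 0 < δ → ∃ B : ℝ, ∀ X : ℝ, 2 ≤ X →
        (Nat.card {n : ℕ | 1 ≤ n ∧ (n : ℝ) ≤ X ∧ δ ≤ ‖∫ x, fourier (n : ℤ) x ∂μ‖} : ℝ) ≤
          B * Real.log X ^ C)) := by
  refine ⟨fun k hk α θ hα h0 h1 => main k hk α θ hα h0 h1, fun μ hμ h2 h3 => ⟨fun h => ?_, ?_⟩⟩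
  · refine ⟨0, fun δ hδ => ⟨0, fun X _ => ?_⟩⟩
    have : {n : ℕ | 1 ≤ n ∧ (n : ℝ) ≤ X ∧ δ ≤ ‖∫ x, fourier (n : ℤ) x ∂μ‖} = ∅ := by
      ext n
      simp only [mem_ofPred_eq, mem_empty_iff_false, iff_false]
      rintro ⟨hn, _, hd⟩
      have hz : ∫ x, (fourier (n : ℤ) x : ℂ) ∂μ = 0 := by
        rw [h]
        exact coeff_volume (by omega)
      rw [hz, norm_zero] at hd
      linarith
    rw [this]
    simp
  · rintro ⟨C, hC⟩
    by_contra hne
    -- a nonzero coefficient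
    obtain ⟨a, ha, hac⟩ : ∃ a : ℤ, a ≠ 0 ∧ ∫ x, (fourier a x : ℂ) ∂μ ≠ 0 := by
      by_contra hcon
      push Not at hcon
      refine hne (Pool.Agent.R202.ext_fourier fun m => ?_)
      by_cases hm : m = 0
      · subst hm
        have hv : (volume : Measure UnitAddCircle) univ = 1 := UnitAddCircle.measure_univ
        simp [measureReal_def, hv]
      · rw [coeff_volume hm, hcon m hm]
    set α := ‖∫ x, (fourier a x : ℂ) ∂μ‖ with hα
    have hα0 : 0 < α := norm_pos_iff.2 hac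
    obtain ⟨c, X₀, hc, hX₀, hmain⟩ := main (C + 1) (by omega) α (1 / 2) hα0 (by norm_num) (by norm_num)
    obtain ⟨B, hB⟩ := hC (1 / 2 * α ^ (2 * (C + 1))) (by positivity)
    have ha1 : (1 : ℝ) ≤ |(a : ℝ)| := by
      have : (1 : ℤ) ≤ |a| := Int.one_le_abs ha
      exact_mod_cast this
    have hlim : Tendsto (fun X : ℝ => Real.log X) atTop atTop := Real.tendsto_log_atTop
    have hev : ∀ᶠ X : ℝ in atTop, X₀ ≤ X ∧ 2 ≤ X ∧ 1 + Real.log |(a : ℝ)| + |B| * 2 ^ C / c ≤ Real.log X := by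
      filter_upwards [eventually_ge_atTop X₀, eventually_ge_atTop 2, hlim.eventually_ge_atTop
        (1 + Real.log |(a : ℝ)| + |B| * 2 ^ C / c)] with X h1 h2 h3
      exact ⟨h1, h2, h3⟩
    obtain ⟨X, hX1, hX2, hX3⟩ := hev.exists
    have h4 := hmain μ hμ h2 h3 a ha hα.le X hX1
    have h5 := hB (|(a : ℝ)| * X) (by nlinarith)
    have h6 := h4.trans h5
    have hla : 0 ≤ Real.log |(a : ℝ)| := Real.log_nonneg ha1
    have hL : Real.log (|(a : ℝ)| * X) = Real.log |(a : ℝ)| + Real.log X :=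
      Real.log_mul (by positivity) (by positivity)
    have hq : 0 ≤ |B| * 2 ^ C / c := by positivity
    set L := Real.log X with hLd
    have hL1 : 1 ≤ L := by linarith
    have h7 : B * Real.log (|(a : ℝ)| * X) ^ C ≤ |B| * 2 ^ C * L ^ C := by
      rw [hL, mul_assoc, ← mul_pow]
      refine mul_le_mul (le_abs_self B) ?_ (by positivity) (abs_nonneg B)
      exact pow_le_pow_left₀ (by positivity) (by linarith) _
    have h8 : L ^ (C + 1) ≤ L ^ (4 * (C + 1)) := pow_le_pow_right₀ hL1 (by omega)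
    have h9 : c * L ^ (C + 1) ≤ |B| * 2 ^ C * L ^ C :=
      ((mul_le_mul_of_nonneg_left h8 hc.le).trans h6).trans h7
    have hLC : 0 < L ^ C := by positivity
    have h10 : c * L ≤ |B| * 2 ^ C := by
      rw [pow_succ, ← mul_assoc] at h9
      nlinarith
    have h11 : L ≤ |B| * 2 ^ C / c := by
      rw [le_div_iff₀ hc]
      linarith
    linarith

end Pool.Agent.Results.MP_e27144_an.ManyLargeCoefficients
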