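import Mathlib
import Pool.Agent.TH461.SST.Main
import Pool.Agent.R203.SC.Tors

/-!
# Measures invariant under `×p` and `×q` have no mass at a single exponential scale

For coprime `p, q ≥ 2`: uniformly in all the invariant probability measures `μ` and in all the
integers `d`, the mass of the points `x` with `exp (-A T) ≤ ‖d x‖ ≤ exp (-T)` tends to `0` as
`T → ∞`; pointwise bounds for all `x`; periodic orbits do not concentrate on arcs of length
`N ^ (-δ)`.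
-/

set_option autoImplicit false

open MeasureTheory

namespace Pool.Agent.Results.MP_e27144_an.NoMassAtOneScale

/-- **No mass at a single scale.** Let `p, q ≥ 2` be coprime.
1. (All points.) There is `C` such that for all `A ≥ 1`, `η > 0`, all `N ≥ N₀ (A, η)` and ALL points
   `x` of the circle, at most `C A η N ^ 2` of the pairs `(i, j)` with `p ^ i q ^ j ≤ e ^ N` satisfy
   `e ^ (-A η N) ≤ ‖p ^ i q ^ j x‖ ≤ e ^ (-η N)`.
2. (All invariant measures.) For all `A ≥ 1` and `ε > 0` there is `T₀` such that for all `T ≥ T₀`,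
   all probability measures `μ` invariant under `x ↦ p x` and `x ↦ q x` and all integers `d` one has
   `μ {x | e ^ (-A T) ≤ ‖d x‖ ≤ e ^ (-T)} ≤ ε`.
3. (All periodic orbits.) For all `δ, ε > 0`, all large `N` coprime to `p q` and every orbit `O` of a
   point of order `N`: for all `k` and all integers `a₁, ..., a_k`, at most `ε |O| ^ k` of the
   `k`-tuples `y` of points of `O` satisfy `0 < ‖a₁ y₁ + ... + a_k y_k‖ ≤ N ^ (-δ)`; and every arc
   of radius `N ^ (-δ)` contains at most `ε |O|` points of `O`. -/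
theorem result (p q : ℕ) (hp : 2 ≤ p) (hq : 2 ≤ q) (hpq : Nat.Coprime p q) :
    (∃ C : ℝ, 0 < C ∧ ∀ A η : ℝ, 1 ≤ A → 0 < η → ∃ N₀ : ℝ, ∀ N : ℝ, N₀ ≤ N →
      ∀ x : UnitAddCircle,
        ({u : ℕ × ℕ | (u.1 : ℝ) * Real.log p + (u.2 : ℝ) * Real.log q ≤ N ∧
          Real.exp (-(A * η * N)) ≤ ‖(p ^ u.1 * q ^ u.2) • x‖ ∧
          ‖(p ^ u.1 * q ^ u.2) • x‖ ≤ Real.exp (-(η * N))}.ncard : ℝ) ≤ C * A * η * N ^ 2) ∧
    (∀ A ε : ℝ, 1 ≤ A → 0 < ε → ∃ T₀ : ℝ, ∀ T : ℝ, T₀ ≤ T → ∀ μ : Measure UnitAddCircle,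
      IsProbabilityMeasure μ → MeasurePreserving (fun x : UnitAddCircle => p • x) μ μ →
      MeasurePreserving (fun x : UnitAddCircle => q • x) μ μ → ∀ d : ℤ,
        μ.real {x | Real.exp (-(A * T)) ≤ ‖d • x‖ ∧ ‖d • x‖ ≤ Real.exp (-T)} ≤ ε) ∧
    (∀ δ ε : ℝ, 0 < δ → 0 < ε → ∃ N₀ : ℕ, ∀ N : ℕ, N₀ ≤ N → Nat.Coprime N (p * q) →
      ∀ x : UnitAddCircle, addOrderOf x = N → ∀ O : Set UnitAddCircle,
        O = {y | ∃ i j : ℕ, y = (p ^ i * q ^ j) • x} →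
          (∀ (k : ℕ) (a : Fin k → ℤ),
            ({y : Fin k → UnitAddCircle | (∀ i, y i ∈ O) ∧ ∑ i, a i • y i ≠ 0 ∧
              ‖∑ i, a i • y i‖ ≤ (N : ℝ) ^ (-δ)}.ncard : ℝ) ≤ ε * (O.ncard : ℝ) ^ k) ∧
          ∀ c : UnitAddCircle,
            ({y | y ∈ O ∧ ‖y - c‖ ≤ (N : ℝ) ^ (-δ)}.ncard : ℝ) ≤ ε * (O.ncard : ℝ)) := by
  have hP : Pool.Agent.R203.SC.PointStmt p q :=
    Pool.Agent.R203.SC.point hp hq hpq (Pool.Agent.TH461.SST.Main.cluster hp hq hpq)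
  refine ⟨hP, fun A ε hA hε => Pool.Agent.R203.SC.meas hp hq hP hA hε, fun δ ε hδ hε => ?_⟩
  obtain ⟨N₁, h1⟩ := Pool.Agent.R203.SC.tuples hp hq hP hδ hε
  obtain ⟨N₂, h2⟩ := Pool.Agent.R203.SC.arcs hp hq hP hδ hε
  refine ⟨max N₁ N₂, fun N hN hco x hx O hO => ?_⟩
  subst hO
  exact ⟨h1 N ((le_max_left _ _).trans hN) hco x hx, h2 N ((le_max_right _ _).trans hN) hco x hx⟩

end Pool.Agent.Results.MP_e27144_an.NoMassAtOneScale
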